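import Pool.Agent.H99Q.P2
import Pool.Agent.H99Q.MRK

/-!
# The optimal pairwise coupling ratio of the line is bounded over all powers

`optRatio q` is the optimal pairwise coupling ratio of the set of all Borel probability measures on
the line for the cost `|x - y| ^ q`.  It is at most `5000` for every `q > 0`.

The coupling.  For `1 / 2 ≤ q < 1`: a random hierarchy of blocks with random origin and base
`M = 2 ^ ⌈1 / (1 - q)⌉`; the random variable `X_P` is the limit of a Markov chain which starts with a
quantile of `P` and in step `n` resamples the point inside its block of level `n` with the quantile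
function of `P` conditioned on this block.  For `0 < q ≤ 1 / 2`: base `M = 2 ^ ⌈1 / q⌉` and in step `n` the
sub-block is chosen by rejection sampling.  For `q ≥ 1`: the quantile coupling.
-/

set_option autoImplicit false

open MeasureTheory Pool.Agent.R972.PC
open scoped ENNReal

theorem Pool.Agent.Results.MP_ee92c9_pr.BoundedRatio.result :
    ∀ q : ℝ, 0 < q → optRatio q ≤ 5000 :=
  Pool.Agent.H99Q.all_powers Pool.Agent.H99Q.MRK.t
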